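import Pool.Agent.H73.CBD.Stmts

set_option autoImplicit false

namespace Pool.CBD

theorem nch_f0 (z : V) : f z 0 = z 0 ^ 2 - z 1 ^ 2 := rfl

theorem nch_f1 (z : V) : f z 1 = z 0 ^ 2 + z 1 ^ 2 := rfl

theorem nch_key {X Y : ℂ} (h1 : ‖X‖ = ‖Y‖) (h2 : ‖X - Y‖ = ‖X + Y‖) (hY : Y ≠ 0) :
    X ^ 2 + Y ^ 2 = 0 := by
  have h3 : Complex.normSq (X - Y) = Complex.normSq (X + Y) := by
    rw [Complex.normSq_eq_norm_sq, Complex.normSq_eq_norm_sq, h2]
  have h4 : Complex.normSq X = Complex.normSq Y := by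
    rw [Complex.normSq_eq_norm_sq, Complex.normSq_eq_norm_sq, h1]
  rw [Complex.normSq_sub, Complex.normSq_add] at h3
  have h5 : (X * (starRingEnd ℂ) Y).re = 0 := by linarith
  have h6 : (starRingEnd ℂ) X * Y = -(X * (starRingEnd ℂ) Y) := by
    have h7 : (starRingEnd ℂ) X * Y = (starRingEnd ℂ) (X * (starRingEnd ℂ) Y) := by
      rw [map_mul, Complex.conj_conj]
    rw [h7]
    apply Complex.ext
    · rw [Complex.conj_re, Complex.neg_re, h5, neg_zero]
    · rw [Complex.conj_im, Complex.neg_im]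
  have h8 : X * (starRingEnd ℂ) X = Y * (starRingEnd ℂ) Y := by
    rw [Complex.mul_conj, Complex.mul_conj, h4]
  have h9 : (X ^ 2 + Y ^ 2) * (starRingEnd ℂ) Y = 0 := by
    have h10 : (X ^ 2 + Y ^ 2) * (starRingEnd ℂ) Y =
        X * (X * (starRingEnd ℂ) Y) + Y * (Y * (starRingEnd ℂ) Y) := by ring
    rw [h10, ← h8, ← neg_eq_iff_eq_neg.2 h6]
    ring
  rcases mul_eq_zero.1 h9 with h | h
  · exact h
  · exact absurd ((map_eq_zero _).1 h) hY

theorem NCH_thm : NCHStmt := by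
  intro z hz h1 h2 h3
  have hY : z 1 ≠ 0 := by
    intro h
    apply hz
    have h0 : z 0 = 0 := by
      rw [h, norm_zero] at h1
      exact norm_eq_zero.1 h1
    funext i
    fin_cases i
    · exact h0
    · exact h
  have hX : z 0 ≠ 0 := by
    intro h
    rw [h, norm_zero] at h1
    exact hY (norm_eq_zero.1 h1.symm)
  have hk : (z 0 ^ 2) ^ 2 + (z 1 ^ 2) ^ 2 = 0 := by
    apply nch_key
    · rw [norm_pow, norm_pow, h1]
    · exact h2
    · exact pow_ne_zero 2 hY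
  have e1 : f (f z) 1 = 0 := by
    rw [nch_f1, nch_f0, nch_f1]
    linear_combination 2 * hk
  have e0 : f (f z) 0 = -4 * (z 0 ^ 2 * z 1 ^ 2) := by
    rw [nch_f0, nch_f0, nch_f1]
    ring
  rw [e1, e0, norm_zero, norm_eq_zero] at h3
  exact mul_ne_zero (by norm_num) (mul_ne_zero (pow_ne_zero 2 hX) (pow_ne_zero 2 hY)) h3

end Pool.CBD
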